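import Pool.Agent.TH424.Fl.Parts

/-! The 3-graph of the triples meeting both halves of the vertex set. -/

set_option autoImplicit false
open Finset
open scoped Classical

namespace Pool.Agent.TH424.Fl

/-- the first half -/
def lo (m : ℕ) : Finset (Fin (2 * m)) := univ.filter fun v => v.val < m
/-- the second half -/
def hi (m : ℕ) : Finset (Fin (2 * m)) := univ.filter fun v => m ≤ v.val

theorem lo_hi_disj (m : ℕ) : Disjoint (lo m) (hi m) := by
  rw [Finset.disjoint_left]
  intro v h1 h2
  have := (mem_filter.mp h1).2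
  have := (mem_filter.mp h2).2
  omega

theorem card_lo (m : ℕ) : (lo m).card = m := by
  have : lo m = (univ : Finset (Fin m)).image (fun j => (⟨j.val, by omega⟩ : Fin (2 * m))) := by
    ext v
    unfold lo
    simp only [mem_filter, mem_univ, true_and, mem_image]
    constructor
    · intro h
      exact ⟨⟨v.val, h⟩, rfl⟩
    · rintro ⟨j, rfl⟩
      exact j.isLt
  rw [this, card_image_of_injective, card_univ, Fintype.card_fin]
  intro a b h
  have h' : a.val = b.val := congrArg (fun v : Fin (2 * m) => v.val) h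
  exact Fin.ext h'

theorem card_lo_hi (m : ℕ) (S : Finset (Fin (2 * m))) :
    (S ∩ lo m).card + (S ∩ hi m).card = S.card := by
  rw [← card_union_of_disjoint]
  · congr 1
    ext v
    simp only [mem_union, mem_inter, lo, hi, mem_filter, mem_univ, true_and]
    constructor
    · rintro (h | h) <;> exact h.1
    · intro h
      by_cases h' : v.val < m
      · exact Or.inl ⟨h, h'⟩
      · exact Or.inr ⟨h, by omega⟩
  · exact Finset.disjoint_of_subset_left inter_subset_right
      (Finset.disjoint_of_subset_right inter_subset_right (lo_hi_disj m))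

theorem card_hi (m : ℕ) : (hi m).card = m := by
  have h := card_lo_hi m univ
  rw [univ_inter, univ_inter, card_univ, Fintype.card_fin, card_lo] at h
  omega

/-- the triples meeting both halves -/
noncomputable def bip (m : ℕ) : Finset (Finset (Fin (2 * m))) :=
  ((univ : Finset (Fin (2 * m))).powersetCard 3).filter
    fun s => (s ∩ lo m).card ≤ 2 ∧ (s ∩ hi m).card ≤ 2

theorem bip_card3 (m : ℕ) : ∀ s ∈ bip m, s.card = 3 := fun _ h =>
  (mem_powersetCard.mp (mem_filter.mp h).1).2

theorem bip_free (m : ℕ) (S : Finset (Fin (2 * m))) (hS : S.card = 5) :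
    ∃ s ⊆ S, s.card = 3 ∧ s ∉ bip m := by
  have h := card_lo_hi m S
  rw [hS] at h
  rcases (by omega : 3 ≤ (S ∩ lo m).card ∨ 3 ≤ (S ∩ hi m).card) with h1 | h1
  · obtain ⟨s, hs, hs3⟩ := Finset.exists_subset_card_eq h1
    refine ⟨s, hs.trans inter_subset_left, hs3, fun hb => ?_⟩
    have h2 := (mem_filter.mp hb).2.1
    rw [inter_eq_left.mpr (hs.trans inter_subset_right), hs3] at h2
    omega
  · obtain ⟨s, hs, hs3⟩ := Finset.exists_subset_card_eq h1
    refine ⟨s, hs.trans inter_subset_left, hs3, fun hb => ?_⟩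
    have h2 := (mem_filter.mp hb).2.2
    rw [inter_eq_left.mpr (hs.trans inter_subset_right), hs3] at h2
    omega

theorem bip_quads (m : ℕ) : (m.choose 2) ^ 2 ≤
    (((univ : Finset (Fin (2 * m))).powersetCard 4).filter
      fun S => ∀ s ⊆ S, s.card = 3 → s ∈ bip m).card := by
  have h := three_parts (lo m) (hi m) ∅ (lo_hi_disj m) (disjoint_empty_right _)
    (disjoint_empty_right _) 2 2 0
  rw [card_lo, card_hi, card_empty, Nat.choose_zero_right, mul_one, ← sq] at h
  refine h.trans (card_le_card ?_)
  intro S hS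
  rw [mem_filter] at hS ⊢
  refine ⟨hS.1, fun s hs hs3 => ?_⟩
  unfold bip
  rw [mem_filter, mem_powersetCard]
  refine ⟨⟨subset_univ _, hs3⟩, ?_, ?_⟩
  · exact (card_le_card (inter_subset_inter_right hs)).trans hS.2.1.le
  · exact (card_le_card (inter_subset_inter_right hs)).trans hS.2.2.1.le

theorem bip_edges (m : ℕ) : 2 * (m.choose 2 * m) ≤ (bip m).card := by
  have h1 := three_parts (lo m) (hi m) ∅ (lo_hi_disj m) (disjoint_empty_right _)
    (disjoint_empty_right _) 2 1 0
  have h2 := three_parts (lo m) (hi m) ∅ (lo_hi_disj m) (disjoint_empty_right _)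
    (disjoint_empty_right _) 1 2 0
  rw [card_lo, card_hi, card_empty, Nat.choose_zero_right, mul_one, Nat.choose_one_right] at h1 h2
  have h3 : (((univ : Finset (Fin (2 * m))).powersetCard 3).filter
        (fun S => (S ∩ lo m).card = 2 ∧ (S ∩ hi m).card = 1 ∧ (S ∩ ∅).card = 0)).card +
      (((univ : Finset (Fin (2 * m))).powersetCard 3).filter
        (fun S => (S ∩ lo m).card = 1 ∧ (S ∩ hi m).card = 2 ∧ (S ∩ ∅).card = 0)).card ≤
      (bip m).card := by
    rw [← card_union_of_disjoint]
    · refine card_le_card ?_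
      intro S hS
      unfold bip
      rw [mem_union, mem_filter, mem_filter] at hS
      rw [mem_filter]
      rcases hS with hS | hS
      · exact ⟨hS.1, by rw [hS.2.1], by rw [hS.2.2.1]; norm_num⟩
      · exact ⟨hS.1, by rw [hS.2.1]; norm_num, by rw [hS.2.2.1]⟩
    · rw [Finset.disjoint_left]
      intro S hS hS'
      rw [mem_filter] at hS hS'
      omega
  have h4 : 2 * (m.choose 2 * m) = m.choose 2 * m + m * m.choose 2 := by ring
  rw [h4]
  exact (Nat.add_le_add h1 h2).trans h3

end Pool.Agent.TH424.Fl
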