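import Mathlib

/-! Counting the sets with given intersections with three disjoint parts. -/

set_option autoImplicit false
open Finset

namespace Pool.Agent.TH424.Fl

theorem three_inter {α : Type} [DecidableEq α] {A B C X Y Z : Finset α} (hAB : Disjoint A B)
    (hAC : Disjoint A C) (hX : X ⊆ A) (hY : Y ⊆ B) (hZ : Z ⊆ C) :
    (X ∪ Y ∪ Z) ∩ A = X := by
  ext v
  simp only [mem_inter, mem_union]
  constructor
  · rintro ⟨(h | h) | h, hA⟩
    · exact h
    · exact absurd (hY h) (Finset.disjoint_left.mp hAB hA)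
    · exact absurd (hZ h) (Finset.disjoint_left.mp hAC hA)
  · intro h
    exact ⟨Or.inl (Or.inl h), hX h⟩

theorem three_parts {α : Type} [Fintype α] [DecidableEq α] (A B C : Finset α)
    (hAB : Disjoint A B) (hAC : Disjoint A C) (hBC : Disjoint B C) (a b c : ℕ) :
    A.card.choose a * (B.card.choose b * C.card.choose c) ≤
      (((univ : Finset α).powersetCard (a + b + c)).filter
        (fun S => (S ∩ A).card = a ∧ (S ∩ B).card = b ∧ (S ∩ C).card = c)).card := by
  have hcard : A.card.choose a * (B.card.choose b * C.card.choose c) =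
      (A.powersetCard a ×ˢ (B.powersetCard b ×ˢ C.powersetCard c)).card := by
    rw [card_product, card_product, card_powersetCard, card_powersetCard, card_powersetCard]
  rw [hcard]
  have hA : ∀ p ∈ A.powersetCard a ×ˢ (B.powersetCard b ×ˢ C.powersetCard c),
      (p.1 ∪ p.2.1 ∪ p.2.2) ∩ A = p.1 := by
    intro p hp
    rw [mem_product, mem_product, mem_powersetCard, mem_powersetCard, mem_powersetCard] at hp
    exact three_inter hAB hAC hp.1.1 hp.2.1.1 hp.2.2.1
  have hB : ∀ p ∈ A.powersetCard a ×ˢ (B.powersetCard b ×ˢ C.powersetCard c),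
      (p.1 ∪ p.2.1 ∪ p.2.2) ∩ B = p.2.1 := by
    intro p hp
    rw [mem_product, mem_product, mem_powersetCard, mem_powersetCard, mem_powersetCard] at hp
    have : p.1 ∪ p.2.1 ∪ p.2.2 = p.2.1 ∪ p.1 ∪ p.2.2 := by
      rw [union_comm p.1 p.2.1]
    rw [this]
    exact three_inter hAB.symm hBC hp.2.1.1 hp.1.1 hp.2.2.1
  have hC : ∀ p ∈ A.powersetCard a ×ˢ (B.powersetCard b ×ˢ C.powersetCard c),
      (p.1 ∪ p.2.1 ∪ p.2.2) ∩ C = p.2.2 := by
    intro p hp
    rw [mem_product, mem_product, mem_powersetCard, mem_powersetCard, mem_powersetCard] at hp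
    have : p.1 ∪ p.2.1 ∪ p.2.2 = p.2.2 ∪ p.1 ∪ p.2.1 := by
      rw [union_comm (p.1 ∪ p.2.1) p.2.2, union_assoc]
    rw [this]
    exact three_inter hAC.symm hBC.symm hp.2.2.1 hp.1.1 hp.2.1.1
  refine Finset.card_le_card_of_injOn (fun p => p.1 ∪ p.2.1 ∪ p.2.2) ?_ ?_
  · intro p hp
    have hp' := mem_coe.mp hp
    have h1 := hA p hp'
    have h2 := hB p hp'
    have h3 := hC p hp'
    rw [mem_product, mem_product, mem_powersetCard, mem_powersetCard, mem_powersetCard] at hp'
    rw [mem_coe, mem_filter, mem_powersetCard]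
    refine ⟨⟨subset_univ _, ?_⟩, ?_, ?_, ?_⟩
    · rw [card_union_of_disjoint, card_union_of_disjoint, hp'.1.2, hp'.2.1.2, hp'.2.2.2]
      · exact Finset.disjoint_of_subset_left hp'.1.1 (Finset.disjoint_of_subset_right hp'.2.1.1 hAB)
      · rw [disjoint_union_left]
        exact ⟨Finset.disjoint_of_subset_left hp'.1.1 (Finset.disjoint_of_subset_right hp'.2.2.1 hAC),
          Finset.disjoint_of_subset_left hp'.2.1.1 (Finset.disjoint_of_subset_right hp'.2.2.1 hBC)⟩
    · rw [h1]; exact hp'.1.2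
    · rw [h2]; exact hp'.2.1.2
    · rw [h3]; exact hp'.2.2.2
  · intro p hp q hq h
    have h' : p.1 ∪ p.2.1 ∪ p.2.2 = q.1 ∪ q.2.1 ∪ q.2.2 := h
    have e1 : p.1 = q.1 := by rw [← hA p hp, ← hA q hq, h']
    have e2 : p.2.1 = q.2.1 := by rw [← hB p hp, ← hB q hq, h']
    have e3 : p.2.2 = q.2.2 := by rw [← hC p hp, ← hC q hq, h']
    exact Prod.ext e1 (Prod.ext e2 e3)

end Pool.Agent.TH424.Fl
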