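import Pool.Agent.H122R2.K5.Lower4
import Pool.Agent.W629.Q4.Count
import Pool.Agent.TH424.Fl.Parts

/-! The quadruples with three edges in Turán's 3-graph. -/

set_option autoImplicit false
open Finset
open scoped Classical

namespace Pool.Agent.TH424.Fl.K4F
open Pool.Agent.H449R2.Fl Pool.Agent.W629.Q4 Pool.Agent.H122R2.K5

theorem inter_Pt {n : ℕ} (k : ℕ) (S : Finset (Fin n)) : (S ∩ Pt k).card = cnt k S := by
  unfold cnt Pt
  congr 1
  ext v
  simp

theorem inside_erase {n : ℕ} {H : Finset (Finset (Fin n))} (h3 : ∀ s ∈ H, s.card = 3)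
    (S : Finset (Fin n)) (hS : S.card = 4) :
    inside H S = ∑ x ∈ S, (if S.erase x ∈ H then 1 else 0) := by
  rw [← card_filter]
  have hi : inside H S = (H.filter fun t => t ⊆ S).card := by
    unfold inside
    congr!
  rw [hi]
  symm
  refine Finset.card_bij (fun x _ => S.erase x) ?_ ?_ ?_
  · intro x hx
    rw [mem_filter] at hx ⊢
    exact ⟨hx.2, erase_subset x S⟩
  · intro x hx y hy h
    have hx' := (mem_filter.mp hx).1
    by_contra hne
    have h1 : x ∉ S.erase x := notMem_erase x S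
    rw [h] at h1
    exact h1 (mem_erase.mpr ⟨hne, hx'⟩)
  · intro t ht
    rw [mem_filter] at ht
    have h1 : (S \ t).card = 1 := by
      rw [card_sdiff_of_subset ht.2, hS, h3 t ht.1]
    obtain ⟨x, hx⟩ := card_eq_one.mp h1
    have hx' : x ∈ S \ t := by rw [hx]; exact mem_singleton_self x
    rw [mem_sdiff] at hx'
    have he : S.erase x = t := by
      symm
      apply Finset.eq_of_subset_of_card_le
      · intro z hz
        rw [mem_erase]
        exact ⟨fun h => hx'.2 (h ▸ hz), ht.2 hz⟩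
      · rw [card_erase_of_mem hx'.1, hS, h3 t ht.1]
    exact ⟨x, mem_filter.mpr ⟨hx'.1, he.symm ▸ ht.1⟩, he⟩

theorem cnt_erase {n : ℕ} (k : ℕ) (S : Finset (Fin n)) (x : Fin n) (hx : x ∈ S) :
    cnt k (S.erase x) = cnt k S - (if x.val % 3 = k then 1 else 0) := by
  have h := cnt_insert k (S.erase x) x (notMem_erase x S)
  rw [insert_erase hx] at h
  omega

theorem mem_tur_erase {n : ℕ} (S : Finset (Fin n)) (hS : S.card = 4) (x : Fin n) (hx : x ∈ S) :
    S.erase x ∈ tur n ↔ Al (cnt 0 S - (if x.val % 3 = 0 then 1 else 0))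
      (cnt 1 S - (if x.val % 3 = 1 then 1 else 0)) (cnt 2 S - (if x.val % 3 = 2 then 1 else 0)) := by
  unfold tur
  rw [mem_filter, mem_powersetCard, cnt_erase 0 S x hx, cnt_erase 1 S x hx, cnt_erase 2 S x hx,
    card_erase_of_mem hx, hS]
  exact ⟨fun h => h.2, fun h => ⟨⟨subset_univ _, rfl⟩, h⟩⟩

theorem inside_tur {n : ℕ} (S : Finset (Fin n)) (hS : S.card = 4) :
    inside (tur n) S =
      (if Al (cnt 0 S - 1) (cnt 1 S) (cnt 2 S) then cnt 0 S else 0) +
      (if Al (cnt 0 S) (cnt 1 S - 1) (cnt 2 S) then cnt 1 S else 0) +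
      (if Al (cnt 0 S) (cnt 1 S) (cnt 2 S - 1) then cnt 2 S else 0) := by
  rw [inside_erase (tur_card n) S hS]
  have h0 : ∀ x ∈ S, (if S.erase x ∈ tur n then 1 else 0) =
      (if x.val % 3 = 0 then (if Al (cnt 0 S - 1) (cnt 1 S) (cnt 2 S) then 1 else 0) else 0) +
      (if x.val % 3 = 1 then (if Al (cnt 0 S) (cnt 1 S - 1) (cnt 2 S) then 1 else 0) else 0) +
      (if x.val % 3 = 2 then (if Al (cnt 0 S) (cnt 1 S) (cnt 2 S - 1) then 1 else 0) else 0) := by
    intro x hx
    have h := mem_tur_erase S hS x hx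
    have h3 : x.val % 3 = 0 ∨ x.val % 3 = 1 ∨ x.val % 3 = 2 := by omega
    rcases h3 with h3 | h3 | h3
    · simp only [h3, if_true, if_false, Nat.sub_zero, zero_ne_one, OfNat.zero_ne_ofNat,
        OfNat.ofNat_ne_zero] at h ⊢
      simp only [h, add_zero]
    · simp only [h3, if_true, if_false, Nat.sub_zero, one_ne_zero, OfNat.one_ne_ofNat,
        OfNat.ofNat_ne_one] at h ⊢
      simp only [h, add_zero, zero_add]
    · simp only [h3, if_true, if_false, Nat.sub_zero, OfNat.ofNat_ne_zero,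
        OfNat.ofNat_ne_one] at h ⊢
      simp only [h, zero_add]
  rw [sum_congr rfl h0, sum_add_distrib, sum_add_distrib]
  have h1 : ∀ (k : ℕ) (P : Prop) [Decidable P], ∑ x ∈ S, (if x.val % 3 = k then (if P then 1 else 0) else 0) =
      if P then cnt k S else 0 := by
    intro k P _
    by_cases hP : P
    · simp only [hP, if_true]
      rw [← card_filter]
      rfl
    · simp only [hP, if_false]
      simp
  rw [h1 0, h1 1, h1 2]

/-- the patterns of the quadruples with three edges -/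
def pats : Finset (ℕ × ℕ × ℕ) :=
  {(2, 1, 1), (1, 2, 1), (1, 1, 2), (3, 1, 0), (0, 3, 1), (1, 0, 3)}

theorem tur_quads (m : ℕ) : 3 * (m.choose 2 * m ^ 2) + 3 * (m.choose 3 * m) ≤ N4 (tur (3 * m)) 3 := by
  have hd : ∀ j k : ℕ, j ≠ k → Disjoint (Pt (n := 3 * m) j) (Pt k) := by
    intro j k hjk
    rw [Finset.disjoint_left]
    intro v h1 h2
    exact hjk ((mem_filter.mp h1).2.symm.trans (mem_filter.mp h2).2)
  have hp : ∀ p ∈ pats, p.1 + p.2.1 + p.2.2 = 4 := by decide
  have h1 : ∀ p ∈ pats, m.choose p.1 * (m.choose p.2.1 * m.choose p.2.2) ≤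
      ((P4 (3 * m)).filter (fun S => cnt 0 S = p.1 ∧ cnt 1 S = p.2.1 ∧ cnt 2 S = p.2.2)).card := by
    intro p hpp
    have h := three_parts (Pt (n := 3 * m) 0) (Pt 1) (Pt 2) (hd 0 1 (by norm_num))
      (hd 0 2 (by norm_num)) (hd 1 2 (by norm_num)) p.1 p.2.1 p.2.2
    rw [card_Pt m 0 (by norm_num), card_Pt m 1 (by norm_num), card_Pt m 2 (by norm_num),
      hp p hpp] at h
    simp only [inter_Pt] at h
    exact h
  have h2 : ∑ p ∈ pats, m.choose p.1 * (m.choose p.2.1 * m.choose p.2.2) ≤ N4 (tur (3 * m)) 3 := by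
    refine (sum_le_sum h1).trans ?_
    rw [← card_biUnion]
    · unfold N4
      refine card_le_card ?_
      intro S hS
      rw [mem_biUnion] at hS
      obtain ⟨p, hpp, hS⟩ := hS
      rw [mem_filter] at hS ⊢
      refine ⟨hS.1, ?_⟩
      rw [inside_tur S (mem_powersetCard.mp hS.1).2, hS.2.1, hS.2.2.1, hS.2.2.2]
      unfold pats at hpp
      simp only [mem_insert, mem_singleton] at hpp
      rcases hpp with rfl | rfl | rfl | rfl | rfl | rfl <;> simp [Al]
    · intro p _ q _ hpq
      rw [Function.onFun, Finset.disjoint_left]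
      intro S h1 h2
      rw [mem_filter] at h1 h2
      apply hpq
      exact Prod.ext (h1.2.1.symm.trans h2.2.1) (Prod.ext (h1.2.2.1.symm.trans h2.2.2.1)
        (h1.2.2.2.symm.trans h2.2.2.2))
  refine le_trans (le_of_eq ?_) h2
  have e1 : ∑ p ∈ pats, m.choose p.1 * (m.choose p.2.1 * m.choose p.2.2) =
      m.choose 2 * (m.choose 1 * m.choose 1) + (m.choose 1 * (m.choose 2 * m.choose 1) +
      (m.choose 1 * (m.choose 1 * m.choose 2) + (m.choose 3 * (m.choose 1 * m.choose 0) +
      (m.choose 0 * (m.choose 3 * m.choose 1) + m.choose 1 * (m.choose 0 * m.choose 3))))) := by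
    unfold pats
    rw [sum_insert (by decide), sum_insert (by decide), sum_insert (by decide),
      sum_insert (by decide), sum_insert (by decide), sum_singleton]
  rw [e1, Nat.choose_one_right, Nat.choose_zero_right]
  ring

/-- the patterns of the edges -/
def pats3 : Finset (ℕ × ℕ × ℕ) := {(1, 1, 1), (2, 1, 0), (0, 2, 1), (1, 0, 2)}

theorem tur_edges (m : ℕ) : m ^ 3 + 3 * (m.choose 2 * m) ≤ (tur (3 * m)).card := by
  have hd : ∀ j k : ℕ, j ≠ k → Disjoint (Pt (n := 3 * m) j) (Pt k) := by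
    intro j k hjk
    rw [Finset.disjoint_left]
    intro v h1 h2
    exact hjk ((mem_filter.mp h1).2.symm.trans (mem_filter.mp h2).2)
  have hp : ∀ p ∈ pats3, p.1 + p.2.1 + p.2.2 = 3 := by decide
  have h1 : ∀ p ∈ pats3, m.choose p.1 * (m.choose p.2.1 * m.choose p.2.2) ≤
      (((univ : Finset (Fin (3 * m))).powersetCard 3).filter
        (fun S => cnt 0 S = p.1 ∧ cnt 1 S = p.2.1 ∧ cnt 2 S = p.2.2)).card := by
    intro p hpp
    have h := three_parts (Pt (n := 3 * m) 0) (Pt 1) (Pt 2) (hd 0 1 (by norm_num))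
      (hd 0 2 (by norm_num)) (hd 1 2 (by norm_num)) p.1 p.2.1 p.2.2
    rw [card_Pt m 0 (by norm_num), card_Pt m 1 (by norm_num), card_Pt m 2 (by norm_num),
      hp p hpp] at h
    simp only [inter_Pt] at h
    exact h
  have h2 : ∑ p ∈ pats3, m.choose p.1 * (m.choose p.2.1 * m.choose p.2.2) ≤ (tur (3 * m)).card := by
    refine (sum_le_sum h1).trans ?_
    rw [← card_biUnion]
    · refine card_le_card ?_
      intro S hS
      rw [mem_biUnion] at hS
      obtain ⟨p, hpp, hS⟩ := hS
      unfold tur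
      rw [mem_filter] at hS ⊢
      refine ⟨hS.1, ?_⟩
      rw [hS.2.1, hS.2.2.1, hS.2.2.2]
      unfold pats3 at hpp
      simp only [mem_insert, mem_singleton] at hpp
      rcases hpp with rfl | rfl | rfl | rfl <;> simp [Al]
    · intro p _ q _ hpq
      rw [Function.onFun, Finset.disjoint_left]
      intro S h1 h2
      rw [mem_filter] at h1 h2
      apply hpq
      exact Prod.ext (h1.2.1.symm.trans h2.2.1) (Prod.ext (h1.2.2.1.symm.trans h2.2.2.1)
        (h1.2.2.2.symm.trans h2.2.2.2))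
  refine le_trans (le_of_eq ?_) h2
  have e1 : ∑ p ∈ pats3, m.choose p.1 * (m.choose p.2.1 * m.choose p.2.2) =
      m.choose 1 * (m.choose 1 * m.choose 1) + (m.choose 2 * (m.choose 1 * m.choose 0) +
      (m.choose 0 * (m.choose 2 * m.choose 1) + m.choose 1 * (m.choose 0 * m.choose 2))) := by
    unfold pats3
    rw [sum_insert (by decide), sum_insert (by decide), sum_insert (by decide), sum_singleton]
  rw [e1, Nat.choose_one_right, Nat.choose_zero_right]
  ring

end Pool.Agent.TH424.Fl.K4F
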