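import Pool.Agent.H449R2.Fl.Bound

/-! Detection of complete 3-graphs on five vertices in a mask. -/

set_option autoImplicit false
open Finset

namespace Pool.Agent.TH424.Fl
open Pool.Agent.H449R2.Fl

/-- the five vertices span a complete 3-graph -/
def five (m a b c d x : ℕ) : Bool :=
  and (Nat.beq (sg (pe m) a b c d) 15) (Nat.beq (ta (pe m) a b c d x) 63)

/-- some five vertices span a complete 3-graph -/
def hasK5 (m : ℕ) : Bool :=
  or (five m 0 1 2 3 4) (or (five m 0 1 2 3 5) (or (five m 0 1 2 4 5)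
  (or (five m 0 1 3 4 5) (or (five m 0 2 3 4 5) (five m 1 2 3 4 5)))))

theorem hasK5_false {V : Type} {e : V → V → V → ℕ}
    (hK : ∀ a b c d x, ¬ (sg e a b c d = 15 ∧ ta e a b c d x = 63))
    (v : Fin 6 → V) (m : ℕ)
    (h : ∀ i j k : Fin 6, e (v i) (v j) (v k) = pe m i.val j.val k.val) : hasK5 m = false := by
  have key : ∀ i j k l p : Fin 6, five m i.val j.val k.val l.val p.val = false := by
    intro i j k l p
    have h1 : sg (pe m) i.val j.val k.val l.val = sg e (v i) (v j) (v k) (v l) := by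
      simp only [sg, h]
    have h2 : ta (pe m) i.val j.val k.val l.val p.val = ta e (v i) (v j) (v k) (v l) (v p) := by
      simp only [ta, h]
    unfold five
    rw [h1, h2]
    by_contra hc
    rw [Bool.not_eq_false] at hc
    have hc' : (Nat.beq (sg e (v i) (v j) (v k) (v l)) 15 &&
        Nat.beq (ta e (v i) (v j) (v k) (v l) (v p)) 63) = true := hc
    rw [Bool.and_eq_true] at hc'
    exact hK _ _ _ _ _ ⟨Nat.eq_of_beq_eq_true hc'.1, Nat.eq_of_beq_eq_true hc'.2⟩
  have k0 := key 0 1 2 3 4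
  have k1 := key 0 1 2 3 5
  have k2 := key 0 1 2 4 5
  have k3 := key 0 1 3 4 5
  have k4 := key 0 2 3 4 5
  have k5 := key 1 2 3 4 5
  unfold hasK5
  simp only [Bool.or_eq_false_iff]
  exact ⟨k0, k1, k2, k3, k4, k5⟩

end Pool.Agent.TH424.Fl
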