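import Pool.Agent.TH424.Fl.K4ATab

/-! Kernel checks (generated). -/

set_option autoImplicit false
set_option maxRecDepth 100000

namespace Pool.Agent.TH424.Fl.K4A
open Pool.Agent.H449R2.Fl


theorem s0 : nall 24 (fun k => ckS hasK4 T q B (Nat.add 0 k)) = true := by decide +kernel
theorem s1 : nall 24 (fun k => ckS hasK4 T q B (Nat.add 24 k)) = true := by decide +kernel
theorem s2 : nall 24 (fun k => ckS hasK4 T q B (Nat.add 48 k)) = true := by decide +kernel
theorem s3 : nall 24 (fun k => ckS hasK4 T q B (Nat.add 72 k)) = true := by decide +kernel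
theorem s4 : nall 24 (fun k => ckS hasK4 T q B (Nat.add 96 k)) = true := by decide +kernel
theorem s5 : nall 24 (fun k => ckS hasK4 T q B (Nat.add 120 k)) = true := by decide +kernel
theorem s6 : nall 24 (fun k => ckS hasK4 T q B (Nat.add 144 k)) = true := by decide +kernel
theorem s7 : nall 24 (fun k => ckS hasK4 T q B (Nat.add 168 k)) = true := by decide +kernel
theorem s8 : nall 24 (fun k => ckS hasK4 T q B (Nat.add 192 k)) = true := by decide +kernel
theorem s9 : nall 24 (fun k => ckS hasK4 T q B (Nat.add 216 k)) = true := by decide +kernel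
theorem s10 : nall 24 (fun k => ckS hasK4 T q B (Nat.add 240 k)) = true := by decide +kernel
theorem s11 : nall 24 (fun k => ckS hasK4 T q B (Nat.add 264 k)) = true := by decide +kernel
theorem s12 : nall 24 (fun k => ckS hasK4 T q B (Nat.add 288 k)) = true := by decide +kernel
theorem s13 : nall 24 (fun k => ckS hasK4 T q B (Nat.add 312 k)) = true := by decide +kernel
theorem s14 : nall 24 (fun k => ckS hasK4 T q B (Nat.add 336 k)) = true := by decide +kernel

end Pool.Agent.TH424.Fl.K4A
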