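import Pool.Agent.TH424.Fl.K4ATab

/-! Kernel checks (generated). -/

set_option autoImplicit false
set_option maxRecDepth 100000

namespace Pool.Agent.TH424.Fl.K4A
open Pool.Agent.H449R2.Fl


theorem s30 : nall 24 (fun k => ckS hasK4 T q B (Nat.add 720 k)) = true := by decide +kernel
theorem s31 : nall 24 (fun k => ckS hasK4 T q B (Nat.add 744 k)) = true := by decide +kernel
theorem s32 : nall 24 (fun k => ckS hasK4 T q B (Nat.add 768 k)) = true := by decide +kernel
theorem s33 : nall 24 (fun k => ckS hasK4 T q B (Nat.add 792 k)) = true := by decide +kernel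
theorem s34 : nall 24 (fun k => ckS hasK4 T q B (Nat.add 816 k)) = true := by decide +kernel
theorem s35 : nall 24 (fun k => ckS hasK4 T q B (Nat.add 840 k)) = true := by decide +kernel
theorem s36 : nall 24 (fun k => ckS hasK4 T q B (Nat.add 864 k)) = true := by decide +kernel
theorem s37 : nall 24 (fun k => ckS hasK4 T q B (Nat.add 888 k)) = true := by decide +kernel
theorem s38 : nall 24 (fun k => ckS hasK4 T q B (Nat.add 912 k)) = true := by decide +kernel
theorem s39 : nall 24 (fun k => ckS hasK4 T q B (Nat.add 936 k)) = true := by decide +kernel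
theorem s40 : nall 24 (fun k => ckS hasK4 T q B (Nat.add 960 k)) = true := by decide +kernel
theorem s41 : nall 24 (fun k => ckS hasK4 T q B (Nat.add 984 k)) = true := by decide +kernel
theorem s42 : nall 24 (fun k => ckS hasK4 T q B (Nat.add 1008 k)) = true := by decide +kernel
theorem s43 : nall 24 (fun k => ckS hasK4 T q B (Nat.add 1032 k)) = true := by decide +kernel
theorem s44 : nall 24 (fun k => ckS hasK4 T q B (Nat.add 1056 k)) = true := by decide +kernel

end Pool.Agent.TH424.Fl.K4A
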