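import Pool.Agent.TH424.Fl.K4ATab

/-! Kernel checks (generated). -/

set_option autoImplicit false
set_option maxRecDepth 100000

namespace Pool.Agent.TH424.Fl.K4A
open Pool.Agent.H449R2.Fl


theorem s60 : nall 24 (fun k => ckS hasK4 T q B (Nat.add 1440 k)) = true := by decide +kernel
theorem s61 : nall 24 (fun k => ckS hasK4 T q B (Nat.add 1464 k)) = true := by decide +kernel
theorem s62 : nall 24 (fun k => ckS hasK4 T q B (Nat.add 1488 k)) = true := by decide +kernel
theorem s63 : nall 24 (fun k => ckS hasK4 T q B (Nat.add 1512 k)) = true := by decide +kernel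
theorem s64 : nall 24 (fun k => ckS hasK4 T q B (Nat.add 1536 k)) = true := by decide +kernel
theorem s65 : nall 24 (fun k => ckS hasK4 T q B (Nat.add 1560 k)) = true := by decide +kernel
theorem s66 : nall 24 (fun k => ckS hasK4 T q B (Nat.add 1584 k)) = true := by decide +kernel
theorem s67 : nall 24 (fun k => ckS hasK4 T q B (Nat.add 1608 k)) = true := by decide +kernel
theorem s68 : nall 24 (fun k => ckS hasK4 T q B (Nat.add 1632 k)) = true := by decide +kernel
theorem s69 : nall 24 (fun k => ckS hasK4 T q B (Nat.add 1656 k)) = true := by decide +kernel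
theorem s70 : nall 24 (fun k => ckS hasK4 T q B (Nat.add 1680 k)) = true := by decide +kernel
theorem s71 : nall 24 (fun k => ckS hasK4 T q B (Nat.add 1704 k)) = true := by decide +kernel
theorem s72 : nall 24 (fun k => ckS hasK4 T q B (Nat.add 1728 k)) = true := by decide +kernel
theorem s73 : nall 24 (fun k => ckS hasK4 T q B (Nat.add 1752 k)) = true := by decide +kernel
theorem s74 : nall 24 (fun k => ckS hasK4 T q B (Nat.add 1776 k)) = true := by decide +kernel

end Pool.Agent.TH424.Fl.K4A
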