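import Pool.Agent.TH424.Fl.K4BTab

/-! Kernel checks (generated). -/

set_option autoImplicit false
set_option maxRecDepth 100000

namespace Pool.Agent.TH424.Fl.K4B
open Pool.Agent.H449R2.Fl


theorem s15 : nall 24 (fun k => ckS hasK4 T q B (Nat.add 360 k)) = true := by decide +kernel
theorem s16 : nall 24 (fun k => ckS hasK4 T q B (Nat.add 384 k)) = true := by decide +kernel
theorem s17 : nall 24 (fun k => ckS hasK4 T q B (Nat.add 408 k)) = true := by decide +kernel
theorem s18 : nall 24 (fun k => ckS hasK4 T q B (Nat.add 432 k)) = true := by decide +kernel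
theorem s19 : nall 24 (fun k => ckS hasK4 T q B (Nat.add 456 k)) = true := by decide +kernel
theorem s20 : nall 24 (fun k => ckS hasK4 T q B (Nat.add 480 k)) = true := by decide +kernel
theorem s21 : nall 24 (fun k => ckS hasK4 T q B (Nat.add 504 k)) = true := by decide +kernel
theorem s22 : nall 24 (fun k => ckS hasK4 T q B (Nat.add 528 k)) = true := by decide +kernel
theorem s23 : nall 24 (fun k => ckS hasK4 T q B (Nat.add 552 k)) = true := by decide +kernel
theorem s24 : nall 24 (fun k => ckS hasK4 T q B (Nat.add 576 k)) = true := by decide +kernel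
theorem s25 : nall 24 (fun k => ckS hasK4 T q B (Nat.add 600 k)) = true := by decide +kernel
theorem s26 : nall 24 (fun k => ckS hasK4 T q B (Nat.add 624 k)) = true := by decide +kernel
theorem s27 : nall 24 (fun k => ckS hasK4 T q B (Nat.add 648 k)) = true := by decide +kernel
theorem s28 : nall 24 (fun k => ckS hasK4 T q B (Nat.add 672 k)) = true := by decide +kernel
theorem s29 : nall 24 (fun k => ckS hasK4 T q B (Nat.add 696 k)) = true := by decide +kernel

end Pool.Agent.TH424.Fl.K4B
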