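import Pool.Agent.TH424.Fl.K4BTab

/-! Kernel checks (generated). -/

set_option autoImplicit false
set_option maxRecDepth 100000

namespace Pool.Agent.TH424.Fl.K4B
open Pool.Agent.H449R2.Fl


theorem s45 : nall 24 (fun k => ckS hasK4 T q B (Nat.add 1080 k)) = true := by decide +kernel
theorem s46 : nall 24 (fun k => ckS hasK4 T q B (Nat.add 1104 k)) = true := by decide +kernel
theorem s47 : nall 24 (fun k => ckS hasK4 T q B (Nat.add 1128 k)) = true := by decide +kernel
theorem s48 : nall 24 (fun k => ckS hasK4 T q B (Nat.add 1152 k)) = true := by decide +kernel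
theorem s49 : nall 24 (fun k => ckS hasK4 T q B (Nat.add 1176 k)) = true := by decide +kernel
theorem s50 : nall 24 (fun k => ckS hasK4 T q B (Nat.add 1200 k)) = true := by decide +kernel
theorem s51 : nall 24 (fun k => ckS hasK4 T q B (Nat.add 1224 k)) = true := by decide +kernel
theorem s52 : nall 24 (fun k => ckS hasK4 T q B (Nat.add 1248 k)) = true := by decide +kernel
theorem s53 : nall 24 (fun k => ckS hasK4 T q B (Nat.add 1272 k)) = true := by decide +kernel
theorem s54 : nall 24 (fun k => ckS hasK4 T q B (Nat.add 1296 k)) = true := by decide +kernel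
theorem s55 : nall 24 (fun k => ckS hasK4 T q B (Nat.add 1320 k)) = true := by decide +kernel
theorem s56 : nall 24 (fun k => ckS hasK4 T q B (Nat.add 1344 k)) = true := by decide +kernel
theorem s57 : nall 24 (fun k => ckS hasK4 T q B (Nat.add 1368 k)) = true := by decide +kernel
theorem s58 : nall 24 (fun k => ckS hasK4 T q B (Nat.add 1392 k)) = true := by decide +kernel
theorem s59 : nall 24 (fun k => ckS hasK4 T q B (Nat.add 1416 k)) = true := by decide +kernel

end Pool.Agent.TH424.Fl.K4B
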