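import Pool.Agent.TH424.Fl.K4BTab

/-! Kernel checks (generated). -/

set_option autoImplicit false
set_option maxRecDepth 100000

namespace Pool.Agent.TH424.Fl.K4B
open Pool.Agent.H449R2.Fl


theorem s75 : nall 24 (fun k => ckS hasK4 T q B (Nat.add 1800 k)) = true := by decide +kernel
theorem s76 : nall 24 (fun k => ckS hasK4 T q B (Nat.add 1824 k)) = true := by decide +kernel
theorem s77 : nall 24 (fun k => ckS hasK4 T q B (Nat.add 1848 k)) = true := by decide +kernel
theorem s78 : nall 24 (fun k => ckS hasK4 T q B (Nat.add 1872 k)) = true := by decide +kernel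
theorem s79 : nall 24 (fun k => ckS hasK4 T q B (Nat.add 1896 k)) = true := by decide +kernel
theorem s80 : nall 24 (fun k => ckS hasK4 T q B (Nat.add 1920 k)) = true := by decide +kernel
theorem s81 : nall 24 (fun k => ckS hasK4 T q B (Nat.add 1944 k)) = true := by decide +kernel
theorem s82 : nall 24 (fun k => ckS hasK4 T q B (Nat.add 1968 k)) = true := by decide +kernel
theorem s83 : nall 24 (fun k => ckS hasK4 T q B (Nat.add 1992 k)) = true := by decide +kernel
theorem s84 : nall 24 (fun k => ckS hasK4 T q B (Nat.add 2016 k)) = true := by decide +kernel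
theorem s85 : nall 24 (fun k => ckS hasK4 T q B (Nat.add 2040 k)) = true := by decide +kernel
theorem s86 : nall 24 (fun k => ckS hasK4 T q B (Nat.add 2064 k)) = true := by decide +kernel
theorem s87 : nall 24 (fun k => ckS hasK4 T q B (Nat.add 2088 k)) = true := by decide +kernel
theorem s88 : nall 24 (fun k => ckS hasK4 T q B (Nat.add 2112 k)) = true := by decide +kernel

end Pool.Agent.TH424.Fl.K4B
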