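import Pool.Agent.TH424.Fl.K4A
import Pool.Agent.TH424.Fl.K4B
import Pool.Agent.W629.Q4.Count

/-! Edges and quadruples with three edges of `K_4^3`-free 3-graphs. -/

set_option autoImplicit false
set_option maxRecDepth 100000
open Finset
open scoped Classical

namespace Pool.Agent.TH424.Fl.K4F
open Pool.Agent.H449R2.Fl Pool.Agent.W629.Q4

variable {n : ℕ} {H : Finset (Finset (Fin n))}

/-- the ordered count of the quadruples with three edges -/
theorem q3_tuples (h3 : ∀ s ∈ H, s.card = 3) :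
    24 * N4 H 3 ≤ ∑ a, ∑ b, ∑ c, ∑ d, (if ed4 (ind H) a b c d = 3 then 1 else 0) := by
  have h := sets_le_tuples h3 (fun k => if k = 3 then 1 else 0)
  have e1 : ∑ S ∈ (univ : Finset (Fin n)).powersetCard 4, (if inside H S = 3 then 1 else 0) = N4 H 3 := by
    rw [← card_filter]
    rfl
  rw [e1] at h
  exact h

theorem gA_eq {V : Type} {e : V → V → V → ℕ} (he : Pat e) (a b c d : V) :
    K4A.g (sg e a b c d) = 3865470566400 * (32 * e a b c + 9 * (if ed4 e a b c d = 3 then 1 else 0)) := by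
  have l0 := he.le1 a b c
  have l1 := he.le1 a b d
  have l2 := he.le1 a c d
  have l3 := he.le1 b c d
  unfold sg ed4
  interval_cases h0 : e a b c <;> interval_cases h1 : e a b d <;>
    interval_cases h2 : e a c d <;> interval_cases h3 : e b c d <;> rfl

theorem gB_eq {V : Type} {e : V → V → V → ℕ} (he : Pat e) (a b c d : V) :
    K4B.g (sg e a b c d) + 6597069766656 * (2 * e a b c) =
      6597069766656 * (2 + 3 * (if ed4 e a b c d = 3 then 1 else 0)) := by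
  have l0 := he.le1 a b c
  have l1 := he.le1 a b d
  have l2 := he.le1 a c d
  have l3 := he.le1 b c d
  unfold sg ed4
  interval_cases h0 : e a b c <;> interval_cases h1 : e a b d <;>
    interval_cases h2 : e a c d <;> interval_cases h3 : e b c d <;> rfl

theorem six_sum (F : Fin n → Fin n → Fin n → Fin n → ℕ) :
    ∑ a : Fin n, ∑ b : Fin n, ∑ c : Fin n, ∑ d : Fin n, ∑ _x : Fin n, ∑ _y : Fin n,
      (F a b c d : ℤ) = (n : ℤ) ^ 2 * ((∑ a, ∑ b, ∑ c, ∑ d, F a b c d : ℕ) : ℤ) := by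
  simp only [sum_const, card_univ, Fintype.card_fin, nsmul_eq_mul]
  push_cast
  simp only [mul_sum]
  refine sum_congr rfl fun a _ => sum_congr rfl fun b _ => sum_congr rfl fun c _ =>
    sum_congr rfl fun d _ => ?_
  ring

theorem edge_tuples (h3 : ∀ s ∈ H, s.card = 3) :
    ∑ a : Fin n, ∑ b : Fin n, ∑ c : Fin n, ∑ _d : Fin n, ind H a b c = n * (6 * H.card) := by
  simp only [sum_const, card_univ, Fintype.card_fin, smul_eq_mul]
  simp only [← mul_sum]
  rw [sum_ind h3]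

theorem N4_zero (k : ℕ) (H : Finset (Finset (Fin 0))) : N4 H k = 0 := by
  unfold N4
  have : P4 0 = ∅ := by decide
  rw [this]; rfl

theorem boundA (h3 : ∀ s ∈ H, s.card = 3)
    (hK : ∀ S : Finset (Fin n), S.card = 4 → ∃ s ⊆ S, s.card = 3 ∧ s ∉ H) :
    216 * n * H.card + 243 * N4 H 3 ≤ 26 * n ^ 4 := by
  rcases Nat.eq_zero_or_pos n with h0 | hn
  · subst h0
    simp [N4_zero]
  have hb := K4A.bound (ind_pat h3) (hasK4_false (K4free_sg h3 hK))
  rw [six_sum (fun a b c d => K4A.g (sg (ind H) a b c d)), Fintype.card_fin] at hb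
  have h1 : ∑ a, ∑ b, ∑ c, ∑ d, K4A.g (sg (ind H) a b c d) = 3865470566400 *
      (32 * (n * (6 * H.card)) + 9 * ∑ a, ∑ b, ∑ c, ∑ d, (if ed4 (ind H) a b c d = 3 then 1 else 0)) := by
    simp only [gA_eq (ind_pat h3), ← mul_sum, sum_add_distrib]
    rw [edge_tuples h3]
  rw [h1] at hb
  have h2 := q3_tuples h3
  set Q := ∑ a, ∑ b, ∑ c, ∑ d, (if ed4 (ind H) a b c d = 3 then 1 else 0) with hQ
  have hn' : (0 : ℤ) < (n : ℤ) ^ 2 := by positivity
  have h6 : 720 * (3865470566400 * (32 * ((n : ℤ) * (6 * (H.card : ℤ))) + 9 * (Q : ℤ))) ≤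
      64321430224896000 * (n : ℤ) ^ 4 := by
    push_cast at hb
    have h7 : (n : ℤ) ^ 2 * (720 * (3865470566400 * (32 * ((n : ℤ) * (6 * (H.card : ℤ))) + 9 * (Q : ℤ)))) ≤
        (n : ℤ) ^ 2 * (64321430224896000 * (n : ℤ) ^ 4) := by nlinarith [hb]
    exact le_of_mul_le_mul_left h7 hn'
  have h8 : (24 : ℤ) * (N4 H 3 : ℤ) ≤ (Q : ℤ) := by exact_mod_cast h2
  have h9 : 216 * (n : ℤ) * (H.card : ℤ) + 243 * (N4 H 3 : ℤ) ≤ 26 * (n : ℤ) ^ 4 := by nlinarith
  exact_mod_cast h9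

theorem boundB (h3 : ∀ s ∈ H, s.card = 3)
    (hK : ∀ S : Finset (Fin n), S.card = 4 → ∃ s ⊆ S, s.card = 3 ∧ s ∉ H) :
    108 * N4 H 3 ≤ n ^ 4 + 18 * n * H.card := by
  rcases Nat.eq_zero_or_pos n with h0 | hn
  · subst h0
    simp [N4_zero]
  have hb := K4B.bound (ind_pat h3) (hasK4_false (K4free_sg h3 hK))
  rw [six_sum (fun a b c d => K4B.g (sg (ind H) a b c d)), Fintype.card_fin] at hb
  have h1 : ∑ a, ∑ b, ∑ c, ∑ d, K4B.g (sg (ind H) a b c d) + 6597069766656 * (2 * (n * (6 * H.card))) =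
      6597069766656 * (2 * n ^ 4 + 3 * ∑ a, ∑ b, ∑ c, ∑ d, (if ed4 (ind H) a b c d = 3 then 1 else 0)) := by
    rw [← edge_tuples h3]
    simp only [mul_sum, ← sum_add_distrib]
    simp only [gB_eq (ind_pat h3)]
    simp only [← mul_sum, sum_add_distrib, sum_const, card_univ, Fintype.card_fin, smul_eq_mul]
    ring
  have h2 := q3_tuples h3
  set Q := ∑ a, ∑ b, ∑ c, ∑ d, (if ed4 (ind H) a b c d = 3 then 1 else 0) with hQ
  set R := ∑ a, ∑ b, ∑ c, ∑ d, K4B.g (sg (ind H) a b c d) with hR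
  have h1' : (R : ℤ) = 6597069766656 * (2 * (n : ℤ) ^ 4 + 3 * (Q : ℤ)) -
      6597069766656 * (2 * ((n : ℤ) * (6 * (H.card : ℤ)))) := by
    have : ((R + 6597069766656 * (2 * (n * (6 * H.card))) : ℕ) : ℤ) =
      ((6597069766656 * (2 * n ^ 4 + 3 * Q) : ℕ) : ℤ) := by rw [h1]
    push_cast at this
    linarith
  have hn' : (0 : ℤ) < (n : ℤ) ^ 2 := by positivity
  have h6 : 720 * (R : ℤ) ≤ 12666373951979520 * (n : ℤ) ^ 4 := by
    have h7 : (n : ℤ) ^ 2 * (720 * (R : ℤ)) ≤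
        (n : ℤ) ^ 2 * (12666373951979520 * (n : ℤ) ^ 4) := by nlinarith [hb]
    exact le_of_mul_le_mul_left h7 hn'
  rw [h1'] at h6
  have h8 : (24 : ℤ) * (N4 H 3 : ℤ) ≤ (Q : ℤ) := by exact_mod_cast h2
  have h9 : 108 * (N4 H 3 : ℤ) ≤ (n : ℤ) ^ 4 + 18 * (n : ℤ) * (H.card : ℤ) := by nlinarith
  exact_mod_cast h9

end Pool.Agent.TH424.Fl.K4F
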