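import Pool.Agent.TH424.Fl.K5A
import Pool.Agent.TH424.Fl.K5B
import Pool.Agent.H449R2.Fl.Sets5
import Pool.Agent.W629.Q4.Count

/-! Edges and complete quadruples of 3-graphs without a complete 3-graph on five vertices. -/

set_option autoImplicit false
set_option maxRecDepth 100000
open Finset
open scoped Classical

namespace Pool.Agent.TH424.Fl
open Pool.Agent.H449R2.Fl Pool.Agent.W629.Q4

variable {n : ℕ} {H : Finset (Finset (Fin n))}

theorem sg15 {V : Type} {e : V → V → V → ℕ} (he : Pat e) (a b c d : V) :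
    sg e a b c d = 15 ↔ ed4 e a b c d = 4 := by
  have l0 := he.le1 a b c
  have l1 := he.le1 a b d
  have l2 := he.le1 a c d
  have l3 := he.le1 b c d
  simp only [sg, ed4, Nat.add_eq, Nat.mul_eq]
  omega

theorem K5free_ind (h3 : ∀ s ∈ H, s.card = 3)
    (hK : ∀ S : Finset (Fin n), S.card = 5 → ∃ s ⊆ S, s.card = 3 ∧ s ∉ H) :
    ∀ a b c d x, ¬ (sg (ind H) a b c d = 15 ∧ ta (ind H) a b c d x = 63) := by
  rintro a b c d x ⟨hs, ht⟩
  have he := ind_pat h3
  have l0 := he.le1 a b c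
  have l1 := he.le1 a b d
  have l2 := he.le1 a c d
  have l3 := he.le1 b c d
  have m0 := he.le1 a b x
  have m1 := he.le1 a c x
  have m2 := he.le1 a d x
  have m3 := he.le1 b c x
  have m4 := he.le1 b d x
  have m5 := he.le1 c d x
  simp only [sg, ta, Nat.add_eq, Nat.mul_eq] at hs ht
  have h10 : ed5 (ind H) a b c d x = 10 := by
    simp only [ed5, Nat.add_eq]
    omega
  have hinj := ed5_inj he (h10.symm ▸ (by norm_num) : 8 ≤ ed5 (ind H) a b c d x)
  have hc := card_sub h3 (![a, b, c, d, x] : Fin 5 → Fin n) hinj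
  have h10' : ed5 (ind H) ((![a, b, c, d, x] : Fin 5 → Fin n) 0) ((![a, b, c, d, x] : Fin 5 → Fin n) 1)
      ((![a, b, c, d, x] : Fin 5 → Fin n) 2) ((![a, b, c, d, x] : Fin 5 → Fin n) 3)
      ((![a, b, c, d, x] : Fin 5 → Fin n) 4) = 10 := h10
  rw [h10'] at hc
  set S := univ.image (![a, b, c, d, x] : Fin 5 → Fin n) with hS
  have hS5 : S.card = 5 := by
    rw [hS, card_image_of_injective _ hinj, card_univ, Fintype.card_fin]
  obtain ⟨s, hsS, hs3, hsH⟩ := hK S hS5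
  have h1 : (H.filter fun t => t ⊆ S) ⊂ S.powersetCard 3 := by
    rw [Finset.ssubset_iff_of_subset]
    · exact ⟨s, mem_powersetCard.mpr ⟨hsS, hs3⟩, fun h => hsH (mem_filter.mp h).1⟩
    · intro t ht
      rw [mem_filter] at ht
      exact mem_powersetCard.mpr ⟨ht.2, h3 t ht.1⟩
  have h2 := Finset.card_lt_card h1
  rw [card_powersetCard, hS5, hc] at h2
  norm_num [Nat.choose] at h2

/-- the ordered count of the complete quadruples -/
theorem k4_tuples (h3 : ∀ s ∈ H, s.card = 3) :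
    24 * N4 H 4 ≤ ∑ a, ∑ b, ∑ c, ∑ d, (if sg (ind H) a b c d = 15 then 1 else 0) := by
  have h := sets_le_tuples h3 (fun k => if k = 4 then 1 else 0)
  have e1 : ∑ S ∈ (univ : Finset (Fin n)).powersetCard 4, (if inside H S = 4 then 1 else 0) = N4 H 4 := by
    rw [← card_filter]
    rfl
  rw [e1] at h
  refine h.trans (le_of_eq ?_)
  refine sum_congr rfl fun a _ => sum_congr rfl fun b _ => sum_congr rfl fun c _ =>
    sum_congr rfl fun d _ => ?_
  simp only [sg15 (ind_pat h3)]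

theorem gA_eq {V : Type} {e : V → V → V → ℕ} (he : Pat e) (a b c d : V) :
    K5A.g (sg e a b c d) = 137438953472 * (5 * e a b c + 2 * (if sg e a b c d = 15 then 1 else 0)) := by
  have l0 := he.le1 a b c
  have l1 := he.le1 a b d
  have l2 := he.le1 a c d
  have l3 := he.le1 b c d
  unfold sg
  interval_cases h0 : e a b c <;> interval_cases h1 : e a b d <;>
    interval_cases h2 : e a c d <;> interval_cases h3 : e b c d <;> rfl

theorem gB_eq {V : Type} {e : V → V → V → ℕ} (he : Pat e) (a b c d : V) :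
    K5B.g (sg e a b c d) + 274877906944 * e a b c =
      274877906944 * (1 + 2 * (if sg e a b c d = 15 then 1 else 0)) := by
  have l0 := he.le1 a b c
  have l1 := he.le1 a b d
  have l2 := he.le1 a c d
  have l3 := he.le1 b c d
  unfold sg
  interval_cases h0 : e a b c <;> interval_cases h1 : e a b d <;>
    interval_cases h2 : e a c d <;> interval_cases h3 : e b c d <;> rfl

theorem six_sum (F : Fin n → Fin n → Fin n → Fin n → ℕ) :
    ∑ a : Fin n, ∑ b : Fin n, ∑ c : Fin n, ∑ d : Fin n, ∑ _x : Fin n, ∑ _y : Fin n,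
      (F a b c d : ℤ) = (n : ℤ) ^ 2 * ((∑ a, ∑ b, ∑ c, ∑ d, F a b c d : ℕ) : ℤ) := by
  simp only [sum_const, card_univ, Fintype.card_fin, nsmul_eq_mul]
  push_cast
  simp only [mul_sum]
  refine sum_congr rfl fun a _ => sum_congr rfl fun b _ => sum_congr rfl fun c _ =>
    sum_congr rfl fun d _ => ?_
  ring

theorem edge_tuples (h3 : ∀ s ∈ H, s.card = 3) :
    ∑ a : Fin n, ∑ b : Fin n, ∑ c : Fin n, ∑ _d : Fin n, ind H a b c = n * (6 * H.card) := by
  simp only [sum_const, card_univ, Fintype.card_fin, smul_eq_mul]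
  simp only [← mul_sum]
  rw [sum_ind h3]

theorem boundA (h3 : ∀ s ∈ H, s.card = 3)
    (hK : ∀ S : Finset (Fin n), S.card = 5 → ∃ s ⊆ S, s.card = 3 ∧ s ∉ H) :
    20 * n * H.card + 32 * N4 H 4 ≤ 3 * n ^ 4 := by
  rcases Nat.eq_zero_or_pos n with h0 | hn
  · subst h0
    have h5 : N4 H 4 = 0 := by
      unfold N4
      have : P4 0 = ∅ := by decide
      rw [this]; rfl
    simp [h5]
  have hb := K5A.bound (ind_pat h3) (hasK5_false (K5free_ind h3 hK))
  rw [six_sum (fun a b c d => K5A.g (sg (ind H) a b c d)), Fintype.card_fin] at hb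
  have h1 : ∑ a, ∑ b, ∑ c, ∑ d, K5A.g (sg (ind H) a b c d) = 137438953472 *
      (5 * (n * (6 * H.card)) + 2 * ∑ a, ∑ b, ∑ c, ∑ d, (if sg (ind H) a b c d = 15 then 1 else 0)) := by
    simp only [gA_eq (ind_pat h3), ← mul_sum, sum_add_distrib]
    rw [edge_tuples h3]
  rw [h1] at hb
  have h2 := k4_tuples h3
  set Q := ∑ a, ∑ b, ∑ c, ∑ d, (if sg (ind H) a b c d = 15 then 1 else 0) with hQ
  have hn' : (0 : ℤ) < (n : ℤ) ^ 2 := by positivity
  have h6 : 720 * (137438953472 * (5 * ((n : ℤ) * (6 * (H.card : ℤ))) + 2 * (Q : ℤ))) ≤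
      445302209249280 * (n : ℤ) ^ 4 := by
    push_cast at hb
    have h7 : (n : ℤ) ^ 2 * (720 * (137438953472 * (5 * ((n : ℤ) * (6 * (H.card : ℤ))) + 2 * (Q : ℤ)))) ≤
        (n : ℤ) ^ 2 * (445302209249280 * (n : ℤ) ^ 4) := by nlinarith [hb]
    exact le_of_mul_le_mul_left h7 hn'
  have h8 : (24 : ℤ) * (N4 H 4 : ℤ) ≤ (Q : ℤ) := by exact_mod_cast h2
  have h9 : 20 * (n : ℤ) * (H.card : ℤ) + 32 * (N4 H 4 : ℤ) ≤ 3 * (n : ℤ) ^ 4 := by nlinarith
  exact_mod_cast h9

theorem boundB (h3 : ∀ s ∈ H, s.card = 3)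
    (hK : ∀ S : Finset (Fin n), S.card = 5 → ∃ s ⊆ S, s.card = 3 ∧ s ∉ H) :
    8 * N4 H 4 ≤ n * H.card := by
  rcases Nat.eq_zero_or_pos n with h0 | hn
  · subst h0
    have h5 : N4 H 4 = 0 := by
      unfold N4
      have : P4 0 = ∅ := by decide
      rw [this]; rfl
    simp [h5]
  have hb := K5B.bound (ind_pat h3) (hasK5_false (K5free_ind h3 hK))
  rw [six_sum (fun a b c d => K5B.g (sg (ind H) a b c d)), Fintype.card_fin] at hb
  have h1 : ∑ a, ∑ b, ∑ c, ∑ d, K5B.g (sg (ind H) a b c d) + 274877906944 * (n * (6 * H.card)) =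
      274877906944 * (n ^ 4 + 2 * ∑ a, ∑ b, ∑ c, ∑ d, (if sg (ind H) a b c d = 15 then 1 else 0)) := by
    rw [← edge_tuples h3]
    simp only [mul_sum, ← sum_add_distrib]
    simp only [gB_eq (ind_pat h3)]
    simp only [← mul_sum, sum_add_distrib, sum_const, card_univ, Fintype.card_fin, smul_eq_mul]
    ring
  have h2 := k4_tuples h3
  set Q := ∑ a, ∑ b, ∑ c, ∑ d, (if sg (ind H) a b c d = 15 then 1 else 0) with hQ
  set R := ∑ a, ∑ b, ∑ c, ∑ d, K5B.g (sg (ind H) a b c d) with hR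
  have h1' : (R : ℤ) = 274877906944 * ((n : ℤ) ^ 4 + 2 * (Q : ℤ)) -
      274877906944 * ((n : ℤ) * (6 * (H.card : ℤ))) := by
    have : ((R + 274877906944 * (n * (6 * H.card)) : ℕ) : ℤ) =
      ((274877906944 * (n ^ 4 + 2 * Q) : ℕ) : ℤ) := by rw [h1]
    push_cast at this
    linarith
  have hn' : (0 : ℤ) < (n : ℤ) ^ 2 := by positivity
  have h6 : 720 * (R : ℤ) ≤ 197912092999680 * (n : ℤ) ^ 4 := by
    have h7 : (n : ℤ) ^ 2 * (720 * (R : ℤ)) ≤
        (n : ℤ) ^ 2 * (197912092999680 * (n : ℤ) ^ 4) := by nlinarith [hb]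
    exact le_of_mul_le_mul_left h7 hn'
  rw [h1'] at h6
  have h8 : (24 : ℤ) * (N4 H 4 : ℤ) ≤ (Q : ℤ) := by exact_mod_cast h2
  have h9 : 8 * (N4 H 4 : ℤ) ≤ (n : ℤ) * (H.card : ℤ) := by nlinarith
  exact_mod_cast h9

end Pool.Agent.TH424.Fl
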